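import Pool.Agent.H58.BL.Stm5

/-!
# NET: labels of the points of the unit ball of a subspace (helper974)
-/

set_option autoImplicit false

open Module Metric Set MeasureTheory Function
open scoped ENNReal

namespace Pool.Agent.H974.BL

theorem card_sep {E : Type} [NormedAddCommGroup E] [NormedSpace ℝ E] [FiniteDimensional ℝ E]
    {ε : ℝ} (hε : 0 < ε) (s : Finset E) (hs : ∀ c ∈ s, ‖c‖ ≤ 1)
    (h : ∀ c ∈ s, ∀ d ∈ s, c ≠ d → ε ≤ ‖c - d‖) :
    (s.card : ℝ) ≤ (1 + 2 / ε) ^ finrank ℝ E := by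
  borelize E
  let μ : Measure E := Measure.addHaar
  obtain ⟨δ, hδ⟩ : ∃ δ : ℝ, δ = ε / 2 := ⟨_, rfl⟩
  obtain ⟨ρ, hρ⟩ : ∃ ρ : ℝ, ρ = 1 + ε / 2 := ⟨_, rfl⟩
  have δpos : 0 < δ := by rw [hδ]; positivity
  have ρpos : 0 < ρ := by rw [hρ]; positivity
  set A := ⋃ c ∈ s, ball (c : E) δ with hA
  have D : Set.Pairwise (s : Set E) (Disjoint on fun c => ball (c : E) δ) := by
    rintro c hc d hd hcd
    apply ball_disjoint_ball
    rw [dist_eq_norm]
    have h1 := h c hc d hd hcd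
    rw [hδ]
    linarith
  have A_subset : A ⊆ ball (0 : E) ρ := by
    refine iUnion₂_subset fun x hx => ?_
    apply ball_subset_ball'
    rw [dist_zero_right, hδ, hρ]
    have := hs x hx
    linarith
  have I : (s.card : ℝ≥0∞) * ENNReal.ofReal (δ ^ finrank ℝ E) * μ (ball 0 1) ≤
      ENNReal.ofReal (ρ ^ finrank ℝ E) * μ (ball 0 1) :=
    calc
      (s.card : ℝ≥0∞) * ENNReal.ofReal (δ ^ finrank ℝ E) * μ (ball 0 1) = μ A := by
        rw [hA, measure_biUnion_finset D fun c _ => measurableSet_ball]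
        simp only [μ.addHaar_ball_of_pos _ δpos]
        simp only [Finset.sum_const, nsmul_eq_mul, mul_assoc]
      _ ≤ μ (ball (0 : E) ρ) := measure_mono A_subset
      _ = ENNReal.ofReal (ρ ^ finrank ℝ E) * μ (ball 0 1) := by
        simp only [μ.addHaar_ball_of_pos _ ρpos]
  have J : (s.card : ℝ≥0∞) * ENNReal.ofReal (δ ^ finrank ℝ E) ≤ ENNReal.ofReal (ρ ^ finrank ℝ E) :=
    (ENNReal.mul_le_mul_iff_left (measure_ball_pos _ _ zero_lt_one).ne' measure_ball_lt_top.ne).1 I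
  have K := ENNReal.toReal_le_of_le_ofReal (pow_nonneg ρpos.le _) J
  rw [ENNReal.toReal_mul, ENNReal.toReal_natCast,
    ENNReal.toReal_ofReal (pow_nonneg δpos.le _)] at K
  have e : 1 + 2 / ε = ρ / δ := by
    rw [hρ, hδ]
    field_simp
    ring
  rw [e, div_pow, le_div_iff₀ (pow_pos δpos _)]
  exact K

/-- a finite net of the unit ball -/
theorem net {E : Type} [NormedAddCommGroup E] [NormedSpace ℝ E] [FiniteDimensional ℝ E]
    {ε : ℝ} (hε : 0 < ε) : ∃ s : Finset E, (s.card : ℝ) ≤ (1 + 2 / ε) ^ finrank ℝ E ∧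
      ∀ x : E, ‖x‖ ≤ 1 → ∃ c ∈ s, ‖x - c‖ < ε := by
  classical
  obtain ⟨B, hB⟩ := exists_nat_ge ((1 + 2 / ε) ^ finrank ℝ E)
  obtain ⟨P, hP⟩ : ∃ P : ℕ → Prop, P = fun k => ∃ s : Finset E, (∀ c ∈ s, ‖c‖ ≤ 1) ∧
    (∀ c ∈ s, ∀ d ∈ s, c ≠ d → ε ≤ ‖c - d‖) ∧ s.card = k := ⟨_, rfl⟩
  have hbd : ∀ k, P k → k ≤ B := by
    intro k hk
    rw [hP] at hk
    obtain ⟨s, h1, h2, rfl⟩ := hk
    have := (card_sep hε s h1 h2).trans hB
    exact_mod_cast this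
  have h0 : P 0 := by
    rw [hP]
    exact ⟨∅, by simp, by simp, rfl⟩
  have hm := Nat.findGreatest_spec (P := P) (Nat.zero_le B) h0
  have hmax : ∀ k, P k → k ≤ Nat.findGreatest P B := fun k hk =>
    Nat.le_findGreatest (hbd k hk) hk
  obtain ⟨m, hmd⟩ : ∃ m, m = Nat.findGreatest P B := ⟨_, rfl⟩
  rw [← hmd] at hm hmax
  rw [hP] at hm
  obtain ⟨s, h1, h2, h3⟩ := hm
  refine ⟨s, card_sep hε s h1 h2, fun x hx => ?_⟩
  by_contra hcon
  push Not at hcon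
  have hxs : x ∉ s := by
    intro hxs
    have := hcon x hxs
    rw [sub_self, norm_zero] at this
    linarith
  have h4 : P (m + 1) := by
    rw [hP]
    refine ⟨insert x s, ?_, ?_, ?_⟩
    · intro c hc
      rcases Finset.mem_insert.1 hc with rfl | hc
      · exact hx
      · exact h1 c hc
    · intro c hc d hd hcd
      rcases Finset.mem_insert.1 hc with e1 | hc'
      · rcases Finset.mem_insert.1 hd with e2 | hd'
        · exact absurd (e1.trans e2.symm) hcd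
        · rw [e1]
          exact hcon d hd'
      · rcases Finset.mem_insert.1 hd with e2 | hd'
        · rw [e2, norm_sub_rev]
          exact hcon c hc'
        · exact h2 c hc' d hd' hcd
    · rw [Finset.card_insert_of_notMem hxs, h3]
  have := hmax _ h4
  omega

theorem t_net : Pool.Agent.H58.BL.S_NET := by
  classical
  intro δ hδ
  have hδ2 : 0 < δ / 2 := by positivity
  refine ⟨1 + 2 / (δ / 2), by
    have : 0 < 2 / (δ / 2) := by positivity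
    linarith, ?_⟩
  intro n U
  obtain ⟨s, hs1, hs2⟩ := net (E := U) hδ2
  choose f hf1 hf2 using hs2
  obtain ⟨c0, hc0, -⟩ : ∃ c ∈ s, ‖(0 : U) - c‖ < δ / 2 :=
    ⟨f 0 (by rw [norm_zero]; exact zero_le_one), hf1 _ _, hf2 _ _⟩
  refine ⟨s.card, fun x => if h : ∃ hx : x ∈ U, ‖x‖ ≤ 1 then
    s.equivFin ⟨f ⟨x, h.choose⟩ h.choose_spec, hf1 _ _⟩ else s.equivFin ⟨c0, hc0⟩, hs1, ?_⟩
  intro x hx y hy hx1 hy1 hxy
  have e1 : ∃ hx : x ∈ U, ‖x‖ ≤ 1 := ⟨hx, hx1⟩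
  have e2 : ∃ hy : y ∈ U, ‖y‖ ≤ 1 := ⟨hy, hy1⟩
  beta_reduce at hxy
  rw [dif_pos e1, dif_pos e2] at hxy
  have h1 := congrArg Subtype.val (s.equivFin.injective hxy)
  have h2 : f ⟨x, hx⟩ hx1 = f ⟨y, hy⟩ hy1 := h1
  have h3 := hf2 ⟨x, hx⟩ hx1
  have h4 := hf2 ⟨y, hy⟩ hy1
  rw [h2] at h3
  have h5 : ‖(⟨x, hx⟩ : U) - ⟨y, hy⟩‖ ≤ δ := by
    have h6 : (⟨x, hx⟩ : U) - ⟨y, hy⟩ = (⟨x, hx⟩ - f ⟨y, hy⟩ hy1) - (⟨y, hy⟩ - f ⟨y, hy⟩ hy1) := by
      abel
    rw [h6]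
    refine (norm_sub_le _ _).trans ?_
    linarith
  exact h5

end Pool.Agent.H974.BL
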